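import Pool.Agent.Helper89.GP.GoalsC

/-!
# GP, NUM
-/

namespace Pool.Agent.Helper30.GP

open Pool.Agent.Helper89.GP

theorem exp_080 : Real.exp (4 / 5) ≤ 2.2256 := by
  have h := Real.exp_bound' (x := 4 / 5) (by norm_num) (by norm_num) (n := 8) (by norm_num)
  refine h.trans ?_
  norm_num [Finset.sum_range_succ, Nat.factorial]

theorem exp_093 : Real.exp (93 / 100) ≤ 2.535 := by
  have h := Real.exp_bound' (x := 93 / 100) (by norm_num) (by norm_num) (n := 8) (by norm_num)
  refine h.trans ?_
  norm_num [Finset.sum_range_succ, Nat.factorial]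

theorem exp_096 : Real.exp (96 / 100) ≤ 2.612 := by
  have h := Real.exp_bound' (x := 96 / 100) (by norm_num) (by norm_num) (n := 8) (by norm_num)
  refine h.trans ?_
  norm_num [Finset.sum_range_succ, Nat.factorial]

theorem exp_186 : Real.exp (186 / 100) ≤ 6.43 := by
  have h : Real.exp (186 / 100) = Real.exp (93 / 100) * Real.exp (93 / 100) := by
    rw [← Real.exp_add]; norm_num
  rw [h]
  have h1 := exp_093
  have h2 := Real.exp_pos (93 / 100)
  nlinarith

theorem exp_192 : Real.exp (192 / 100) ≤ 6.83 := by
  have h : Real.exp (192 / 100) = Real.exp (96 / 100) * Real.exp (96 / 100) := by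
    rw [← Real.exp_add]; norm_num
  rw [h]
  have h1 := exp_096
  have h2 := Real.exp_pos (96 / 100)
  nlinarith

/-- From `s f < b s` to `A f < 5/16 b`. -/
theorem fin_aux {A s f b : ℝ} (hs : 0 < s) (hA0 : 0 < A) (hA : A ≤ 5 / 16) (hf0 : 0 ≤ b)
    (hf : s * f < b * s) : A * f < 5 / 16 * b := by
  have h1 : f < b := by
    by_contra hcon
    push Not at hcon
    nlinarith
  rcases le_or_gt f 0 with h2 | h2
  · rcases hf0.lt_or_eq with h3 | h3
    · nlinarith
    · subst h3
      nlinarith
  · nlinarith

theorem num : NumStmt := by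
  intro A c g N h hA
  have hA0 : 0 < A := lt_of_lt_of_le h.c0 h.cA
  obtain ⟨s, hs⟩ : ∃ s, s = c / A := ⟨_, rfl⟩
  have hc : c = s * A := by rw [hs]; field_simp
  have hs0 : 0 < s := by rw [hs]; exact div_pos h.c0 hA0
  have hs1 : s ≤ 1 := by rw [hs]; exact (div_le_one hA0).2 h.cA
  have hinv : s * (1 / s) = 1 := by field_simp
  have rh := h.rh
  have r3 := h.r3
  have r4 := h.r4
  have r5 := h.r5
  have rJ := h.rJ
  rw [← hs] at rh r3 r4 r5 rJ
  rcases le_or_gt (33 / 50) s with c1 | c1
  · have h1 : s * (5 / 2 + s + 1 / s) < 4.8 * s := by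
      have : s * (5 / 2 + s + 1 / s) = 5 / 2 * s + s ^ 2 + 1 := by
        rw [mul_add, hinv]; ring
      rw [this]; nlinarith
    have h2 := fin_aux hs0 hA0 hA (by norm_num) h1
    rw [hc]; nlinarith
  · rcases le_or_gt (47 / 100) s with c2 | c2
    · have h1 : s * (3 + 2 * s + s ^ 2 + 1 / s) < 6.4 * s := by
        have : s * (3 + 2 * s + s ^ 2 + 1 / s) = 3 * s + 2 * s ^ 2 + s ^ 3 + 1 := by
          rw [mul_add, hinv]; ring
        rw [this]
        nlinarith [mul_nonneg (sub_nonneg.2 c2) (sub_nonneg.2 c1.le),
          mul_nonneg hs0.le (mul_nonneg (sub_nonneg.2 c2) (sub_nonneg.2 c1.le))]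
      have h2 := fin_aux hs0 hA0 hA (by norm_num) h1
      rw [hc]; nlinarith
    · rcases le_or_gt (27 / 100) s with c3 | c3
      · have h1 : s * (4 + 5 * s + 4 * s ^ 2 + s ^ 3 + 1 / s) < 9.6 * s := by
          have : s * (4 + 5 * s + 4 * s ^ 2 + s ^ 3 + 1 / s) =
              4 * s + 5 * s ^ 2 + 4 * s ^ 3 + s ^ 4 + 1 := by
            rw [mul_add, hinv]; ring
          rw [this]
          have k1 := mul_nonneg (sub_nonneg.2 c3) (sub_nonneg.2 c2.le)
          nlinarith [k1, mul_nonneg hs0.le k1, mul_nonneg (mul_nonneg hs0.le hs0.le) k1]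
        have h2 := fin_aux hs0 hA0 hA (by norm_num) h1
        rw [hc]; nlinarith
      · rcases le_or_gt (1 / 5) s with c4 | c4
        · -- `r5`
          have key : ∀ E : ℝ, Real.exp (3 / 2 * (1 + s)) ≤ E →
              s * (5 + s * (16 / 9 * E + 20 / 9 + (1 + s) / 3) + 1 / s - s) < 12.8 * s →
              1 < g + c := by
            intro E hE h1
            have h2 := fin_aux hs0 hA0 hA (by norm_num) h1
            have h3 : A * (s * (16 / 9 * Real.exp (3 / 2 * (1 + s)))) ≤
                A * (s * (16 / 9 * E)) := by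
              have : 0 ≤ A * s := by positivity
              nlinarith
            rw [hc]
            nlinarith
          have hpoly : ∀ E : ℝ, s * (5 + s * (16 / 9 * E + 20 / 9 + (1 + s) / 3) + 1 / s - s) =
              5 * s + s ^ 2 * (16 / 9 * E + 20 / 9 + (1 + s) / 3) + 1 - s ^ 2 := by
            intro E
            have : s * (5 + s * (16 / 9 * E + 20 / 9 + (1 + s) / 3) + 1 / s - s) =
              5 * s + s ^ 2 * (16 / 9 * E + 20 / 9 + (1 + s) / 3) + s * (1 / s) - s ^ 2 := by
              ring
            rw [this, hinv]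
          rcases le_or_gt s (6 / 25) with c5 | c5
          · apply key 6.43
            · refine le_trans (Real.exp_le_exp.2 ?_) exp_186
              linarith
            · rw [hpoly]
              have k1 := mul_nonneg (sub_nonneg.2 c4) (sub_nonneg.2 c5)
              nlinarith [k1, mul_nonneg hs0.le k1]
          · apply key 6.83
            · refine le_trans (Real.exp_le_exp.2 ?_) exp_192
              linarith
            · rw [hpoly]
              have k1 := mul_nonneg (sub_nonneg.2 c5.le) (sub_nonneg.2 c3.le)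
              nlinarith [k1, mul_nonneg hs0.le k1]
        · -- `rJ`
          have h1 := rJ (4 / (5 * s)) (by positivity)
          have h2 : s * (4 / (5 * s)) = 4 / 5 := by field_simp
          rw [h2] at h1
          have h3 := exp_080
          have h4 : A * ((1 + s) ^ 2 * Real.exp (4 / 5) / s) * s =
              A * (1 + s) ^ 2 * Real.exp (4 / 5) := by field_simp
          have h5 : A * (1 + s) ^ 2 * Real.exp (4 / 5) ≤ A * (1 + s) ^ 2 * 2.2256 :=
            mul_le_mul_of_nonneg_left h3 (by positivity)
          have h6 : 0 < 4 / 5 + s - A * (2.2256 * (1 + s) ^ 2 - s ^ 2) := by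
            have k1 : 0 ≤ 2.2256 * (1 + s) ^ 2 - s ^ 2 := by nlinarith
            have k2 : A * (2.2256 * (1 + s) ^ 2 - s ^ 2) ≤
                5 / 16 * (2.2256 * (1 + s) ^ 2 - s ^ 2) := mul_le_mul_of_nonneg_right hA k1
            nlinarith
          have h7 : s * (4 / (5 * s) + 2 - A * ((1 + s) ^ 2 * Real.exp (4 / 5) / s)) ≤ s * g :=
            mul_le_mul_of_nonneg_left h1 hs0.le
          have h8 : s * (4 / (5 * s) + 2 - A * ((1 + s) ^ 2 * Real.exp (4 / 5) / s)) =
              4 / 5 + 2 * s - A * (1 + s) ^ 2 * Real.exp (4 / 5) := by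
            rw [← h4]
            have : s * (4 / (5 * s) + 2 - A * ((1 + s) ^ 2 * Real.exp (4 / 5) / s)) =
              s * (4 / (5 * s)) + 2 * s - A * ((1 + s) ^ 2 * Real.exp (4 / 5) / s) * s := by ring
            rw [this, h2]
          rw [h8] at h7
          have h9 : 0 < s * (g + c - 1) := by
            rw [hc]
            nlinarith
          have h10 : 0 < g + c - 1 := by
            by_contra hcon
            push Not at hcon
            nlinarith
          linarith

end Pool.Agent.Helper30.GP
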